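import Pool.Agent.Helper52_FK.Sin

/-! # Squad FK, module BEZ: the polynomial on a line and its discriminant -/

namespace Pool.Agent.FK.H52

open NumberField Polynomial Module Pool.Agent.FK

noncomputable section

theorem fac_eq {R : Type*} [CommRing R] {n : ℕ} (z v : Fin n → R)
    (q : (_ : Fin n) × Fin n) :
    fac z v q = C ((v q.2 - v q.1) * (v q.2 - v q.1)) * X +
      C ((v q.2 - v q.1) * (z q.2 - z q.1)) := by
  simp only [fac, C_mul]
  ring

theorem card_prs (n : ℕ) : (prs n).card = n * (n - 1) / 2 := by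
  rw [prs, Finset.card_sigma]
  have h1 : ∀ i : Fin n, (Finset.Ioi i).card = n - 1 - (i : ℕ) := fun i => Fin.card_Ioi i
  rw [Finset.sum_congr rfl fun i _ => h1 i, Fin.sum_univ_eq_sum_range (fun i => n - 1 - i) n,
    Finset.sum_range_reflect (fun i => i) n, Finset.sum_range_id]

/-- The coefficients of a product of linear polynomials. -/
theorem coeff_prod_le {ι : Type*} (s : Finset ι) (b c : ι → ℂ) (E : ℝ) (hE : 0 ≤ E)
    (h : ∀ q ∈ s, ‖b q‖ + ‖c q‖ ≤ E) (k : ℕ) :
    ‖(∏ q ∈ s, (C (b q) * X + C (c q))).coeff k‖ ≤ E ^ s.card := by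
  classical
  induction s using Finset.induction_on generalizing k with
  | empty =>
    simp only [Finset.prod_empty, Finset.card_empty, pow_zero]
    rw [Polynomial.coeff_one]
    split_ifs <;> simp
  | insert x s hx ih =>
    have ih' := fun k => ih (fun q hq => h q (Finset.mem_insert_of_mem hq)) k
    rw [Finset.prod_insert hx, Finset.card_insert_of_notMem hx, pow_succ]
    set P := ∏ q ∈ s, (C (b q) * X + C (c q))
    have hEs : 0 ≤ E ^ s.card := pow_nonneg hE _
    have hbx : ‖b x‖ + ‖c x‖ ≤ E := h x (Finset.mem_insert_self _ _)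
    have h2 : ‖(C (c x) * P).coeff k‖ ≤ ‖c x‖ * E ^ s.card := by
      rw [coeff_C_mul, norm_mul]
      exact mul_le_mul_of_nonneg_left (ih' k) (norm_nonneg _)
    have h1 : ‖(C (b x) * X * P).coeff k‖ ≤ ‖b x‖ * E ^ s.card := by
      rw [mul_assoc, coeff_C_mul, norm_mul]
      refine mul_le_mul_of_nonneg_left ?_ (norm_nonneg _)
      cases k with
      | zero => simpa using hEs
      | succ k => rw [coeff_X_mul]; exact ih' k
    calc ‖((C (b x) * X + C (c x)) * P).coeff k‖
        = ‖(C (b x) * X * P).coeff k + (C (c x) * P).coeff k‖ := by rw [add_mul, coeff_add]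
      _ ≤ ‖b x‖ * E ^ s.card + ‖c x‖ * E ^ s.card := (norm_add_le _ _).trans (add_le_add h1 h2)
      _ = (‖b x‖ + ‖c x‖) * E ^ s.card := by ring
      _ ≤ E * E ^ s.card := mul_le_mul_of_nonneg_right hbx hEs
      _ = E ^ s.card * E := by ring

/-- The resultant of two polynomials with bounded coefficients. -/
theorem resultant_le (f g : ℂ[X]) (m n : ℕ) (M : ℝ) (hM : 0 ≤ M) (hf : ∀ k, ‖f.coeff k‖ ≤ M)
    (hg : ∀ k, ‖g.coeff k‖ ≤ M) :
    ‖resultant f g m n‖ ≤ (m + n).factorial * M ^ (m + n) := by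
  have h := Matrix.det_le (A := sylvester f g m n) (abv := NormedField.toAbsoluteValue ℂ) (x := M)
    (by
      intro i j
      show ‖sylvester f g m n i j‖ ≤ M
      induction j using Fin.addCases with
      | left j =>
        simp only [sylvester, Matrix.of_apply, Fin.addCases_left]
        split_ifs
        · exact hg _
        · simpa using hM
      | right j =>
        simp only [sylvester, Matrix.of_apply, Fin.addCases_right]
        split_ifs
        · exact hf _
        · simpa using hM)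
  rw [Fintype.card_fin, nsmul_eq_mul] at h
  exact h

theorem isCoprime_fac {n : ℕ} (z v : Fin n → ℂ) (hv : Function.Injective v) (h : NonDeg z v)
    (x y : (_ : Fin n) × Fin n) (hx : x ∈ prs n) (hy : y ∈ prs n) (hxy : x ≠ y) :
    IsCoprime (fac z v x) (fac z v y) := by
  have hx' := mem_prs.mp hx
  have hy' := mem_prs.mp hy
  have hβx : v x.2 - v x.1 ≠ 0 := sub_ne_zero.mpr fun e => (ne_of_gt hx') (hv e)
  have hβy : v y.2 - v y.1 ≠ 0 := sub_ne_zero.mpr fun e => (ne_of_gt hy') (hv e)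
  have hne := h x.1 x.2 y.1 y.2 (ne_of_lt hx') (ne_of_lt hy')
    (fun e => hxy (by
      obtain ⟨x1, x2⟩ := x
      obtain ⟨y1, y2⟩ := y
      obtain ⟨e1, e2⟩ := e
      dsimp only at e1 e2
      subst e1; subst e2; rfl))
    (fun e => by
      obtain ⟨e1, e2⟩ := e
      rw [e1, e2] at hx'
      exact lt_asymm hx' hy')
  set β := v x.2 - v x.1
  set β' := v y.2 - v y.1
  set α := z x.2 - z x.1
  set α' := z y.2 - z y.1
  have hne' : α * β' - α' * β ≠ 0 := sub_ne_zero.mpr hne
  refine ⟨C ((α * β' - α' * β)⁻¹ * β' * β⁻¹), - C ((α * β' - α' * β)⁻¹ * β * β'⁻¹), ?_⟩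
  rw [fac, fac]
  have e1 : C ((α * β' - α' * β)⁻¹ * β' * β⁻¹) * (C β * (C α + C β * X)) +
      -C ((α * β' - α' * β)⁻¹ * β * β'⁻¹) * (C β' * (C α' + C β' * X)) =
      C ((α * β' - α' * β)⁻¹ * β' * (β⁻¹ * β) * α - (α * β' - α' * β)⁻¹ * β * (β'⁻¹ * β') * α') +
      C ((α * β' - α' * β)⁻¹ * β' * (β⁻¹ * β) * β - (α * β' - α' * β)⁻¹ * β * (β'⁻¹ * β') * β')
        * X := by
    simp only [C_mul, C_sub]
    ring
  rw [e1, inv_mul_cancel₀ hβx, inv_mul_cancel₀ hβy]
  have e2 : (α * β' - α' * β)⁻¹ * β' * 1 * α - (α * β' - α' * β)⁻¹ * β * 1 * α' = 1 := by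
    calc (α * β' - α' * β)⁻¹ * β' * 1 * α - (α * β' - α' * β)⁻¹ * β * 1 * α'
        = (α * β' - α' * β)⁻¹ * (α * β' - α' * β) := by ring
      _ = 1 := inv_mul_cancel₀ hne'
  have e3 : (α * β' - α' * β)⁻¹ * β' * 1 * β - (α * β' - α' * β)⁻¹ * β * 1 * β' = 0 := by ring
  rw [e2, e3]
  simp

theorem separable_fac {n : ℕ} (z v : Fin n → ℂ) (hv : Function.Injective v)
    (x : (_ : Fin n) × Fin n) (hx : x ∈ prs n) : (fac z v x).Separable := by
  have hx' := mem_prs.mp hx
  have hβx : v x.2 - v x.1 ≠ 0 := sub_ne_zero.mpr fun e => (ne_of_gt hx') (hv e)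
  rw [Polynomial.separable_def, fac_eq]
  refine ⟨0, C (((v x.2 - v x.1) * (v x.2 - v x.1))⁻¹), ?_⟩
  simp only [derivative_add, derivative_C_mul, derivative_X, derivative_C, mul_one, add_zero,
    zero_mul, zero_add, ← C_mul]
  rw [inv_mul_cancel₀ (mul_ne_zero hβx hβx), C_1]

theorem bez : BezStmt := by
  intro n v a hn hv ha c₀ hc₀
  -- constants
  obtain ⟨V, hV1, hV⟩ : ∃ V : ℝ, 1 ≤ V ∧ ∀ q ∈ prs n, ‖v q.2 - v q.1‖ ≤ V := by
    refine ⟨1 + ∑ q ∈ prs n, ‖v q.2 - v q.1‖, ?_, ?_⟩
    · have : 0 ≤ ∑ q ∈ prs n, ‖v q.2 - v q.1‖ := Finset.sum_nonneg fun _ _ => norm_nonneg _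
      linarith
    · intro q hq
      have := Finset.single_le_sum (f := fun q : (_ : Fin n) × Fin n => ‖v q.2 - v q.1‖)
        (fun _ _ => norm_nonneg _) hq
      linarith
  set d := n * (n - 1) / 2 with hd
  have hd1 : 1 ≤ d := by
    have : 2 ≤ n * (n - 1) := by
      calc 2 = 2 * 1 := rfl
        _ ≤ n * (n - 1) := Nat.mul_le_mul hn (by omega)
    omega
  -- a bound for the coefficients and the values: `E * H` for each factor
  set E : ℝ := V * (2 * c₀ + V) with hE
  have hV0 : 0 ≤ V := by linarith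
  have hE1 : 1 ≤ E := by
    rw [hE]
    have : 1 ≤ 2 * c₀ + V := by linarith
    nlinarith
  have hE0 : 0 ≤ E := by linarith
  refine ⟨(d + (d - 1)).factorial * ((d : ℝ) * E ^ d) ^ (d + (d - 1)) + E ^ d,
    d * (d + (d - 1)) + d, ?_⟩
  intro H z Φ hH hz hND hL
  have hH' : (1 : ℝ) ≤ H := by exact_mod_cast hH
  have hH0 : (0 : ℝ) ≤ H := by linarith
  have hEH0 : 0 ≤ E * H := mul_nonneg hE0 hH0
  have hEH1 : 1 ≤ E * H := by nlinarith
  have hβ : ∀ q ∈ prs n, v q.2 - v q.1 ≠ 0 := fun q hq =>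
    sub_ne_zero.mpr fun e => (ne_of_gt (mem_prs.mp hq)) (hv e)
  have hprod : Φ.map (Int.castRingHom ℂ) = ∏ q ∈ prs n, fac z v q := by
    unfold LinePoly at hL
    rw [hL, prod_prs (f := fun i j => (C (v j - v i) * (C (z j - z i) + C (v j - v i) * X)))]
    rfl
  have hprod' : Φ.map (Int.castRingHom ℂ) = ∏ q ∈ prs n,
      (C ((v q.2 - v q.1) * (v q.2 - v q.1)) * X + C ((v q.2 - v q.1) * (z q.2 - z q.1))) := by
    rw [hprod]
    exact Finset.prod_congr rfl fun q _ => fac_eq z v q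
  have hinj : Function.Injective (Int.castRingHom ℂ) := Int.cast_injective
  have hzd : ∀ q : (_ : Fin n) × Fin n, ‖z q.2 - z q.1‖ ≤ 2 * c₀ * H := by
    intro q
    calc ‖z q.2 - z q.1‖ ≤ ‖z q.2‖ + ‖z q.1‖ := norm_sub_le _ _
      _ ≤ c₀ * H + c₀ * H := add_le_add (hz _) (hz _)
      _ = _ := by ring
  -- degree
  have hdeg : Φ.natDegree = d := by
    rw [← Polynomial.natDegree_map_eq_of_injective hinj, hprod',
      Polynomial.natDegree_prod _ _ fun q hq => ?_]
    · rw [Finset.sum_congr rfl fun q hq =>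
        natDegree_linear (mul_ne_zero (hβ q hq) (hβ q hq))]
      rw [Finset.sum_const, smul_eq_mul, mul_one, card_prs]
    · intro h0
      have h1 := natDegree_linear (b := (v q.2 - v q.1) * (z q.2 - z q.1))
        (mul_ne_zero (hβ q hq) (hβ q hq))
      rw [h0] at h1
      simp at h1
  have hlc : Φ.leadingCoeff = a := by
    have h1 : ((Φ.leadingCoeff : ℤ) : ℂ) = (a : ℂ) := by
      have h2 := Polynomial.leadingCoeff_map_of_injective hinj Φ
      rw [hprod', Polynomial.leadingCoeff_prod] at h2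
      rw [Finset.prod_congr rfl fun q hq =>
        leadingCoeff_linear (mul_ne_zero (hβ q hq) (hβ q hq))] at h2
      rw [ha, prod_prs (f := fun i j => (v j - v i) ^ 2)]
      simp only [pow_two]
      rw [h2]
      simp
    exact_mod_cast h1
  -- coefficients
  have hcoe : ∀ k, ‖(Φ.map (Int.castRingHom ℂ)).coeff k‖ ≤ (E * H) ^ d := by
    intro k
    rw [hprod', hd, ← card_prs]
    refine coeff_prod_le _ _ _ _ hEH0 ?_ k
    intro q hq
    rw [norm_mul, norm_mul]
    have h1 := hV q hq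
    have h2 := hzd q
    have h3 := norm_nonneg (v q.2 - v q.1)
    calc ‖v q.2 - v q.1‖ * ‖v q.2 - v q.1‖ + ‖v q.2 - v q.1‖ * ‖z q.2 - z q.1‖
        ≤ V * V + V * (2 * c₀ * H) := by gcongr
      _ ≤ V * V * H + V * (2 * c₀ * H) := by
          have : V * V ≤ V * V * H := le_mul_of_one_le_right (mul_nonneg hV0 hV0) hH'
          linarith
      _ = E * H := by rw [hE]; ring
  have hder : ∀ k, ‖((derivative Φ).map (Int.castRingHom ℂ)).coeff k‖ ≤ d * (E * H) ^ d := by
    intro k
    rw [← Polynomial.derivative_map, Polynomial.coeff_derivative, norm_mul]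
    rcases le_or_gt (k + 1) d with hk | hk
    · calc _ ≤ (E * H) ^ d * d := by
            refine mul_le_mul (hcoe _) ?_ (norm_nonneg _) (pow_nonneg hEH0 _)
            have : ‖((k : ℂ) + 1)‖ = (k : ℝ) + 1 := by
              rw [← Nat.cast_one, ← Nat.cast_add, Complex.norm_natCast]
              push_cast
              ring
            rw [this]
            exact_mod_cast hk
        _ = _ := by ring
    · rw [Polynomial.coeff_map, Polynomial.coeff_eq_zero_of_natDegree_lt (by rw [hdeg]; exact hk)]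
      simp only [map_zero, norm_zero, zero_mul]
      positivity
  have hMle : (E * H) ^ d ≤ d * (E * H) ^ d :=
    le_mul_of_one_le_left (pow_nonneg hEH0 _) (by exact_mod_cast hd1)
  have hM0 : 0 ≤ (d : ℝ) * (E * H) ^ d := by positivity
  -- the resultant
  obtain ⟨P, Q, -, -, hPQ⟩ := exists_mul_add_mul_eq_C_resultant (m := d) (n := d - 1)
    Φ (derivative Φ) hdeg.le (by
      have := Polynomial.natDegree_derivative_le Φ
      rw [hdeg] at this
      exact this) (Or.inl (by omega))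
  have hdd : (derivative Φ).natDegree = d - 1 := by
    rw [Polynomial.natDegree_derivative, hdeg]
  have hmapres : resultant (Φ.map (Int.castRingHom ℂ)) ((derivative Φ).map (Int.castRingHom ℂ))
      d (d - 1) = ((resultant Φ (derivative Φ) d (d - 1) : ℤ) : ℂ) := by
    rw [resultant_map_map]
    simp
  have hsep : (Φ.map (Int.castRingHom ℂ)).Separable := by
    rw [hprod]
    exact Polynomial.separable_prod' (fun x hx y hy hxy => isCoprime_fac z v hv hND x y hx hy hxy)
      (fun x hx => separable_fac z v hv x hx)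
  have hne : resultant Φ (derivative Φ) d (d - 1) ≠ 0 := by
    intro h0
    rw [h0] at hmapres
    have h1 := resultant_ne_zero (Φ.map (Int.castRingHom ℂ))
      ((derivative Φ).map (Int.castRingHom ℂ)) (by
        rw [← Polynomial.derivative_map]
        exact hsep)
    rw [Polynomial.natDegree_map_eq_of_injective hinj,
      Polynomial.natDegree_map_eq_of_injective hinj, hdeg, hdd, hmapres] at h1
    simp at h1
  have hHc : ∀ k : ℕ, k ≤ d * (d + (d - 1)) + d → (H : ℝ) ^ k ≤
      (H : ℝ) ^ (d * (d + (d - 1)) + d) := fun k hk => pow_le_pow_right₀ hH' hk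
  refine ⟨resultant Φ (derivative Φ) d (d - 1), hdeg, hlc, hne, ?_, ?_, ?_⟩
  · have h1 := resultant_le _ _ d (d - 1) _ hM0 (fun k => (hcoe k).trans hMle) hder
    rw [hmapres, Complex.norm_intCast] at h1
    refine h1.trans ?_
    have h2 : ((d : ℝ) * (E * H) ^ d) ^ (d + (d - 1)) =
        ((d : ℝ) * E ^ d) ^ (d + (d - 1)) * (H : ℝ) ^ (d * (d + (d - 1))) := by
      rw [mul_pow E, ← mul_assoc, mul_pow, ← pow_mul]
    rw [h2, ← mul_assoc]
    have h3 := hHc (d * (d + (d - 1))) (by omega)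
    have h4 : 0 ≤ ((d + (d - 1)).factorial : ℝ) * ((d : ℝ) * E ^ d) ^ (d + (d - 1)) := by
      positivity
    have h5 : 0 ≤ E ^ d * (H : ℝ) ^ (d * (d + (d - 1)) + d) := by positivity
    calc _ ≤ ((d + (d - 1)).factorial : ℝ) * ((d : ℝ) * E ^ d) ^ (d + (d - 1)) *
          (H : ℝ) ^ (d * (d + (d - 1)) + d) := mul_le_mul_of_nonneg_left h3 h4
      _ ≤ _ := by rw [add_mul]; linarith
  · intro t ht
    have ht' : (t : ℝ) ≤ H := by exact_mod_cast ht.le
    have h1 : |((Φ.eval (t : ℤ) : ℤ) : ℝ)| = ‖(Φ.map (Int.castRingHom ℂ)).eval ((t : ℤ) : ℂ)‖ := by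
      rw [Polynomial.eval_intCast_map, ← Complex.norm_intCast]
      simp
    rw [h1, hprod, Polynomial.eval_prod, norm_prod]
    have h2 : ∏ q ∈ prs n, ‖(fac z v q).eval ((t : ℤ) : ℂ)‖ ≤ ∏ _q ∈ prs n, (E * H) := by
      refine Finset.prod_le_prod (fun _ _ => norm_nonneg _) fun q hq => ?_
      rw [fac, eval_mul, eval_add, eval_mul, eval_C, eval_C, eval_X, norm_mul]
      have h3 : ‖z q.2 - z q.1 + (v q.2 - v q.1) * ((t : ℤ) : ℂ)‖ ≤ 2 * c₀ * H + V * H := by
        refine (norm_add_le _ _).trans (add_le_add (hzd q) ?_)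
        rw [norm_mul]
        have : ‖((t : ℤ) : ℂ)‖ = (t : ℝ) := by simp
        rw [this]
        exact mul_le_mul (hV q hq) ht' (Nat.cast_nonneg _) hV0
      calc _ ≤ V * (2 * c₀ * H + V * H) :=
            mul_le_mul (hV q hq) h3 (norm_nonneg _) hV0
        _ = E * H := by rw [hE]; ring
    rw [Finset.prod_const, card_prs, ← hd, mul_pow] at h2
    refine h2.trans ?_
    have h3 := hHc d (by omega)
    have h4 : 0 ≤ E ^ d := pow_nonneg hE0 _
    have h5 : 0 ≤ ((d + (d - 1)).factorial : ℝ) * ((d : ℝ) * E ^ d) ^ (d + (d - 1)) *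
        (H : ℝ) ^ (d * (d + (d - 1)) + d) := by positivity
    calc E ^ d * (H : ℝ) ^ d ≤ E ^ d * (H : ℝ) ^ (d * (d + (d - 1)) + d) :=
          mul_le_mul_of_nonneg_left h3 h4
      _ ≤ _ := by rw [add_mul]; linarith
  · exact ⟨P, Q, by rw [mul_comm P, mul_comm Q]; exact hPQ⟩

end

end Pool.Agent.FK.H52
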