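import Pool.Agent.Helper13_FK.Stmts

/-! # Squad FK, module CRS: large squares in a resultant -/

namespace Pool.Agent.FK.H52

open NumberField Polynomial Module Pool.Agent.FK

noncomputable section

theorem box_single (hbox : BoxStmt) (L : Type) [Field L] [NumberField L] (R : ℝ) (hR : 0 ≤ R) :
    {x : 𝓞 L | ∀ σ : L →+* ℂ, ‖σ (x : L)‖ ≤ R}.Finite ∧
    ({x : 𝓞 L | ∀ σ : L →+* ℂ, ‖σ (x : L)‖ ≤ R}.ncard : ℝ) ≤ (2 * R + 1) ^ finrank ℚ L := by
  have h := (hbox Unit (fun _ => L)).1 R hR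
  have hinj : Set.InjOn (fun x : 𝓞 L => (fun _ => x : RR (fun _ : Unit => L)))
      {x : 𝓞 L | ∀ σ : L →+* ℂ, ‖σ (x : L)‖ ≤ R} := by
    intro x _ y _ hxy
    exact congrFun hxy ()
  have hmaps : ∀ x ∈ {x : 𝓞 L | ∀ σ : L →+* ℂ, ‖σ (x : L)‖ ≤ R},
      (fun _ => x : RR (fun _ : Unit => L)) ∈ Box (fun _ : Unit => L) R := by
    intro x hx i
    exact hx i.2
  have hcard : Fintype.card (Emb (fun _ : Unit => L)) = finrank ℚ L := by
    rw [Fintype.card_sigma]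
    simp only [Finset.univ_unique, Finset.sum_const, Finset.card_singleton, one_smul]
    exact Embeddings.card L ℂ
  rw [hcard] at h
  refine ⟨Set.Finite.of_finite_image (h.1.subset (by
    rintro _ ⟨x, hx, rfl⟩
    exact hmaps x hx)) hinj, ?_⟩
  refine le_trans ?_ h.2
  exact_mod_cast Set.ncard_le_ncard_of_injOn _ hmaps hinj h.1

theorem crs (hidl : IdlStmt) (hbox : BoxStmt) : CrsStmt := by
  intro B hB L L' _ _ _ _ δ hδ0 hδ1
  classical
  obtain ⟨C, hC⟩ := hidl B hB L'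
  set n := finrank ℚ L with hn
  set n' := finrank ℚ L' with hn'
  have hn'1 : 1 ≤ n' := Module.finrank_pos
  set e := Fintype.card (L →+* ℂ) with he
  set e' := Fintype.card (L' →+* ℂ) with he'
  refine ⟨min δ (1 - δ), lt_min hδ0 (by linarith), (e : ℝ) * e' * 3 ^ n * (3 * |C|), ?_⟩
  intro H hH
  have hH0 : 0 < H := by linarith
  set k := ⌊H ^ (1 - δ)⌋₊ with hk
  set N := ⌊H ^ ((n' : ℝ) - δ)⌋₊ with hN
  have ha1 : 1 ≤ H ^ (1 - δ) := Real.one_le_rpow hH (by linarith)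
  have hk1 : 1 ≤ k := by
    rw [hk]
    exact Nat.one_le_floor_iff _ |>.mpr ha1
  have hkhalf : H ^ (1 - δ) ≤ 2 * k := by
    have h1 := Nat.lt_floor_add_one (H ^ (1 - δ))
    have h2 : (1 : ℝ) ≤ k := by exact_mod_cast hk1
    rw [← hk] at h1
    linarith
  have hb := box_single hbox L H hH0.le
  have hb' := box_single hbox L' H hH0.le
  set X1 : Finset (𝓞 L) := hb.1.toFinset with hX1
  let F : ℕ → (L' →+* ℂ) → ℂ → Finset (𝓞 L') := fun p τ w =>
    (hb'.1.subset (t := {y : 𝓞 L' | (∀ σ : L' →+* ℂ, ‖σ (y : L')‖ ≤ H) ∧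
      (B p).valuation (w - τ (y : L')) ≤ (B p).valuation (p : ℂ) ^ 2})
      (fun y hy => hy.1)).toFinset
  have hF : ∀ (p : ℕ) (τ : L' →+* ℂ) (w : ℂ), p.Prime →
      ((F p τ w).card : ℝ) ≤ |C| * (1 + H ^ n' / (p : ℝ) ^ 2) := by
    intro p τ w hp
    have h1 := hC H p τ w hH hp
    rw [Set.ncard_eq_toFinset_card _ (hb'.1.subset (fun y hy => hy.1))] at h1
    refine h1.trans (mul_le_mul_of_nonneg_right (le_abs_self C) ?_)
    positivity
  let U : Finset (𝓞 L × 𝓞 L') := (((Finset.Ioc k N).filter Nat.Prime ×ˢ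
    ((Finset.univ : Finset (L →+* ℂ)) ×ˢ (Finset.univ : Finset (L' →+* ℂ)))) ×ˢ X1).biUnion
      fun q => (F q.1.1 q.1.2.2 (q.1.2.1 (q.2 : L))).image fun y => (q.2, y)
  have hsub : {x : 𝓞 L × 𝓞 L' | (∀ σ : L →+* ℂ, ‖σ (x.1 : L)‖ ≤ H) ∧
      (∀ τ : L' →+* ℂ, ‖τ (x.2 : L')‖ ≤ H) ∧ ∃ p : ℕ, p.Prime ∧ H ^ (1 - δ) < p ∧
      (p : ℝ) ≤ H ^ ((finrank ℚ L' : ℝ) - δ) ∧ ∃ (σ : L →+* ℂ) (τ : L' →+* ℂ),
        (B p).valuation (σ (x.1 : L) - τ (x.2 : L')) ≤ (B p).valuation (p : ℂ) ^ 2} ⊆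
      (U : Set (𝓞 L × 𝓞 L')) := by
    rintro ⟨x, y⟩ ⟨hx, hy, p, hp, hp1, hp2, σ, τ, hv⟩
    dsimp only at hx hy hv
    simp only [U, Finset.coe_biUnion, Set.mem_iUnion]
    refine ⟨((p, (σ, τ)), x), ?_, ?_⟩
    · simp only [Finset.coe_product, Set.mem_prod, Finset.mem_coe, Finset.mem_filter,
        Finset.mem_Ioc, Finset.mem_univ, and_true]
      refine ⟨⟨⟨?_, ?_⟩, hp⟩, ?_⟩
      · rw [hk]
        exact (Nat.floor_lt (by linarith)).mpr hp1
      · rw [hN]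
        exact Nat.le_floor hp2
      · rw [hX1, Set.Finite.mem_toFinset]
        exact hx
    · simp only [Finset.coe_image, Set.mem_image, Finset.mem_coe]
      refine ⟨y, ?_, rfl⟩
      simp only [F, Set.Finite.mem_toFinset]
      exact ⟨hy, hv⟩
  have hX1c : (X1.card : ℝ) ≤ (3 * H) ^ n := by
    have h1 := hb.2
    rw [Set.ncard_eq_toFinset_card _ hb.1] at h1
    refine h1.trans (pow_le_pow_left₀ (by linarith) (by linarith) _)
  have hcard : (U.card : ℝ) ≤ ∑ q ∈ (((Finset.Ioc k N).filter Nat.Prime ×ˢ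
    ((Finset.univ : Finset (L →+* ℂ)) ×ˢ (Finset.univ : Finset (L' →+* ℂ)))) ×ˢ X1),
      |C| * (1 + H ^ n' / (q.1.1 : ℝ) ^ 2) := by
    have h1 : (U.card : ℝ) ≤ ((∑ q ∈ (((Finset.Ioc k N).filter Nat.Prime ×ˢ
      ((Finset.univ : Finset (L →+* ℂ)) ×ˢ (Finset.univ : Finset (L' →+* ℂ)))) ×ˢ X1),
        ((F q.1.1 q.1.2.2 (q.1.2.1 (q.2 : L))).image fun y => (q.2, y)).card : ℕ) : ℝ) := by
      exact_mod_cast Finset.card_biUnion_le
    refine h1.trans ?_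
    rw [Nat.cast_sum]
    refine Finset.sum_le_sum fun q hq => ?_
    have hqp : q.1.1.Prime := by
      simp only [Finset.mem_product, Finset.mem_filter] at hq
      exact hq.1.1.2
    refine le_trans ?_ (hF q.1.1 q.1.2.2 (q.1.2.1 (q.2 : L)) hqp)
    exact_mod_cast Finset.card_image_le
  have hsum : ∑ q ∈ (((Finset.Ioc k N).filter Nat.Prime ×ˢ
    ((Finset.univ : Finset (L →+* ℂ)) ×ˢ (Finset.univ : Finset (L' →+* ℂ)))) ×ˢ X1),
      |C| * (1 + H ^ n' / (q.1.1 : ℝ) ^ 2) =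
      (X1.card : ℝ) * (e * e') * (|C| * ∑ p ∈ (Finset.Ioc k N).filter Nat.Prime,
        (1 + H ^ n' / (p : ℝ) ^ 2)) := by
    rw [Finset.sum_product]
    simp only [Finset.sum_const, nsmul_eq_mul]
    rw [← Finset.mul_sum, Finset.sum_product]
    simp only [Finset.sum_const, nsmul_eq_mul, Finset.card_product, Finset.card_univ]
    rw [← Finset.mul_sum, ← Finset.mul_sum, ← he, ← he']
    push_cast
    ring
  have hpsum : ∑ p ∈ (Finset.Ioc k N).filter Nat.Prime, (1 + H ^ n' / (p : ℝ) ^ 2) ≤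
      3 * H ^ ((n' : ℝ) - min δ (1 - δ)) := by
    have h1 : ∑ p ∈ (Finset.Ioc k N).filter Nat.Prime, (1 + H ^ n' / (p : ℝ) ^ 2) ≤
        ∑ p ∈ Finset.Ioc k N, (1 + H ^ n' / (p : ℝ) ^ 2) :=
      Finset.sum_le_sum_of_subset_of_nonneg (Finset.filter_subset _ _) fun p _ _ => by positivity
    have hA : H ^ ((n' : ℝ) - δ) ≤ H ^ ((n' : ℝ) - min δ (1 - δ)) :=
      Real.rpow_le_rpow_of_exponent_le hH (by linarith [min_le_left δ (1 - δ)])
    have hB' : H ^ n' * (2 / H ^ (1 - δ)) ≤ 2 * H ^ ((n' : ℝ) - min δ (1 - δ)) := by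
      have : H ^ n' * (2 / H ^ (1 - δ)) = 2 * H ^ ((n' : ℝ) - (1 - δ)) := by
        rw [Real.rpow_sub hH0 (n' : ℝ) (1 - δ), Real.rpow_natCast]
        ring
      rw [this]
      exact mul_le_mul_of_nonneg_left (Real.rpow_le_rpow_of_exponent_le hH
        (by linarith [min_le_right δ (1 - δ)])) (by norm_num)
    have h2 : ∑ p ∈ Finset.Ioc k N, (1 + H ^ n' / (p : ℝ) ^ 2) ≤
        H ^ ((n' : ℝ) - δ) + H ^ n' * (2 / H ^ (1 - δ)) := by
      rw [Finset.sum_add_distrib]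
      refine add_le_add ?_ ?_
      · rw [Finset.sum_const, nsmul_eq_mul, mul_one, Nat.card_Ioc]
        have h3 : ((N - k : ℕ) : ℝ) ≤ (N : ℝ) := by exact_mod_cast Nat.sub_le _ _
        refine h3.trans ?_
        rw [hN]
        exact Nat.floor_le (by positivity)
      · simp only [div_eq_mul_inv]
        rw [← Finset.mul_sum]
        refine mul_le_mul_of_nonneg_left ?_ (by positivity)
        have hk0 : (0 : ℝ) < k := by exact_mod_cast hk1
        have h4 : (k : ℝ)⁻¹ ≤ 2 * (H ^ (1 - δ))⁻¹ := by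
          rw [← div_eq_mul_inv, inv_le_comm₀ hk0 (by positivity), inv_div]
          linarith
        rcases le_or_gt k N with hkN | hkN
        · have h3 := sum_Ioc_inv_sq_le_sub (α := ℝ) (by omega : k ≠ 0) hkN
          have h5 : (0 : ℝ) ≤ (N : ℝ)⁻¹ := by positivity
          linarith
        · rw [Finset.Ioc_eq_empty (by omega)]
          simp only [Finset.sum_empty]
          positivity
    linarith
  have hfin : ({x : 𝓞 L × 𝓞 L' | (∀ σ : L →+* ℂ, ‖σ (x.1 : L)‖ ≤ H) ∧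
      (∀ τ : L' →+* ℂ, ‖τ (x.2 : L')‖ ≤ H) ∧ ∃ p : ℕ, p.Prime ∧ H ^ (1 - δ) < p ∧
      (p : ℝ) ≤ H ^ ((finrank ℚ L' : ℝ) - δ) ∧ ∃ (σ : L →+* ℂ) (τ : L' →+* ℂ),
        (B p).valuation (σ (x.1 : L) - τ (x.2 : L')) ≤ (B p).valuation (p : ℂ) ^ 2}.ncard : ℝ) ≤
      U.card := by
    have := Set.ncard_le_ncard hsub U.finite_toSet
    rw [Set.ncard_coe_finset] at this
    exact_mod_cast this
  refine hfin.trans (hcard.trans ?_)
  rw [hsum]
  have hexp : H ^ ((n : ℝ) + n' - min δ (1 - δ)) = H ^ n * H ^ ((n' : ℝ) - min δ (1 - δ)) := by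
    rw [← Real.rpow_natCast H n, ← Real.rpow_add hH0]
    congr 1
    ring
  rw [hexp]
  have h6 : |C| * ∑ p ∈ (Finset.Ioc k N).filter Nat.Prime, (1 + H ^ n' / (p : ℝ) ^ 2) ≤
      |C| * (3 * H ^ ((n' : ℝ) - min δ (1 - δ))) :=
    mul_le_mul_of_nonneg_left hpsum (abs_nonneg C)
  have h7 : 0 ≤ |C| * ∑ p ∈ (Finset.Ioc k N).filter Nat.Prime, (1 + H ^ n' / (p : ℝ) ^ 2) := by
    refine mul_nonneg (abs_nonneg _) (Finset.sum_nonneg fun p _ => by positivity)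
  calc (X1.card : ℝ) * (e * e') * (|C| * ∑ p ∈ (Finset.Ioc k N).filter Nat.Prime,
        (1 + H ^ n' / (p : ℝ) ^ 2))
      ≤ ((3 * H) ^ n * (e * e')) * (|C| * (3 * H ^ ((n' : ℝ) - min δ (1 - δ)))) := by
        refine mul_le_mul (mul_le_mul_of_nonneg_right hX1c (by positivity)) h6 h7 (by positivity)
    _ = _ := by
        rw [mul_pow]
        ring

end

end Pool.Agent.FK.H52
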