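import Pool.Agent.Helper13_FK.Stmts

/-! # Squad FK, module EXP: the exponents of the pieces -/

namespace Pool.Agent.FK.H52

open NumberField Polynomial Module Pool.Agent.FK

theorem sum_pairs_le (ι : Type) [Fintype ι] [LinearOrder ι] (m : ι → ℝ) (hm : ∀ a, 0 ≤ m a)
    (hc : 2 ≤ Fintype.card ι) :
    ∑ a, m a ≤ ∑ q ∈ (Finset.univ : Finset (ι × ι)).filter (fun q => q.1 < q.2),
      (m q.1 + m q.2) := by
  have h2 : ∑ q ∈ (Finset.univ : Finset (ι × ι)).filter (fun q => q.1 < q.2), m q.2 =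
      ∑ q ∈ (Finset.univ : Finset (ι × ι)).filter (fun q => q.2 < q.1), m q.1 := by
    refine Finset.sum_nbij' Prod.swap Prod.swap ?_ ?_ ?_ ?_ ?_ <;> simp
  have h3 : ∑ q ∈ (Finset.univ : Finset (ι × ι)).filter (fun q => q.1 < q.2), (m q.1 + m q.2) =
      ∑ q ∈ (Finset.univ : Finset (ι × ι)).filter (fun q => q.1 ≠ q.2), m q.1 := by
    rw [Finset.sum_add_distrib, h2, ← Finset.sum_union]
    · refine Finset.sum_congr ?_ (fun _ _ => rfl)
      ext q
      simp only [Finset.mem_union, Finset.mem_filter, Finset.mem_univ, true_and]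
      exact lt_or_lt_iff_ne
    · rw [Finset.disjoint_left]
      intro q h h'
      exact lt_asymm (Finset.mem_filter.mp h).2 (Finset.mem_filter.mp h').2
  rw [h3, Finset.sum_filter, ← Finset.univ_product_univ, Finset.sum_product]
  refine Finset.sum_le_sum fun a _ => ?_
  have : Nontrivial ι := Fintype.one_lt_card_iff_nontrivial.mp (by omega)
  obtain ⟨b, hb⟩ := exists_ne a
  have := Finset.single_le_sum (f := fun y => if a ≠ y then m a else 0)
    (fun y _ => by split_ifs; exacts [hm a, le_refl _]) (Finset.mem_univ b)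
  simpa [Ne.symm hb] using this

theorem exp : ExpStmt := by
  intro ι _ _ m hc
  have h1 := sum_pairs_le ι (fun a => (m a : ℝ)) (fun a => Nat.cast_nonneg _) hc
  have h4 : ∑ q : {q : ι × ι // q.1 < q.2}, ((m q.1.1 : ℝ) + (m q.1.2 : ℝ)) =
      ∑ q ∈ (Finset.univ : Finset (ι × ι)).filter (fun q => q.1 < q.2),
        ((m q.1 : ℝ) + (m q.2 : ℝ)) := by
    symm
    exact Finset.sum_subtype _ (by simp) _
  rw [← h4] at h1
  rw [Nat.cast_sum]
  have h5 : ∑ q : {q : ι × ι // q.1 < q.2}, ((m q.1.1 : ℝ) + (m q.1.2 : ℝ)) ≤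
      2 * ∑ q : {q : ι × ι // q.1 < q.2}, ((max (m q.1.1) (m q.1.2) : ℕ) : ℝ) := by
    rw [Finset.mul_sum]
    refine Finset.sum_le_sum fun q _ => ?_
    have ha : ((m q.1.1 : ℕ) : ℝ) ≤ ((max (m q.1.1) (m q.1.2) : ℕ) : ℝ) := by
      exact_mod_cast le_max_left _ _
    have hb : ((m q.1.2 : ℕ) : ℝ) ≤ ((max (m q.1.1) (m q.1.2) : ℕ) : ℝ) := by
      exact_mod_cast le_max_right _ _
    linarith
  linarith

end Pool.Agent.FK.H52
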