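import Pool.Agent.Helper52_FK.Vzi

/-! # Squad FK, module SIN: a prime dividing the value once comes from a single pair -/

namespace Pool.Agent.FK.H52

open NumberField Polynomial Module Pool.Agent.FK

/-- The pairs `i < j`. -/
def prs (n : ℕ) : Finset ((_ : Fin n) × Fin n) := Finset.univ.sigma fun i => Finset.Ioi i

theorem mem_prs {n : ℕ} {q : (_ : Fin n) × Fin n} : q ∈ prs n ↔ q.1 < q.2 := by
  simp [prs]

theorem prod_prs {n : ℕ} {M : Type*} [CommMonoid M] (f : Fin n → Fin n → M) :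
    ∏ i, ∏ j ∈ Finset.Ioi i, f i j = ∏ q ∈ prs n, f q.1 q.2 := by
  rw [prs, Finset.prod_sigma]

/-- A factor of the polynomial of the line. -/
noncomputable def fac {R : Type*} [CommRing R] {n : ℕ} (z v : Fin n → R)
    (q : (_ : Fin n) × Fin n) : R[X] :=
  C (v q.2 - v q.1) * (C (z q.2 - z q.1) + C (v q.2 - v q.1) * X)

theorem eval_fac {R : Type*} [CommRing R] {n : ℕ} (z v : Fin n → R)
    (q : (_ : Fin n) × Fin n) (t : R) :
    (fac z v q).eval t = (v q.2 - v q.1) * ((z q.2 + t * v q.2) - (z q.1 + t * v q.1)) := by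
  simp only [fac, eval_mul, eval_C, eval_add, eval_X]
  ring

/-- Two factors vanishing modulo an ideal. -/
theorem deriv_mem {R : Type*} [CommRing R] {n : ℕ} (z v : Fin n → R) (I : Ideal R) (t : R)
    (q q' : (_ : Fin n) × Fin n) (hq : q ∈ prs n) (hq' : q' ∈ prs n) (hne : q ≠ q')
    (h : (fac z v q).eval t ∈ I) (h' : (fac z v q').eval t ∈ I) :
    (∏ x ∈ prs n, fac z v x).eval t ∈ I ∧ (derivative (∏ x ∈ prs n, fac z v x)).eval t ∈ I := by
  have e1 : ∏ x ∈ prs n, fac z v x =
      fac z v q * (fac z v q' * ∏ x ∈ ((prs n).erase q).erase q', fac z v x) := by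
    rw [Finset.mul_prod_erase _ _ (Finset.mem_erase.mpr ⟨hne.symm, hq'⟩),
      Finset.mul_prod_erase _ _ hq]
  rw [e1]
  set g := ∏ x ∈ ((prs n).erase q).erase q', fac z v x
  constructor
  · rw [eval_mul]
    exact I.mul_mem_right _ h
  · simp only [derivative_mul, eval_add, eval_mul]
    refine I.add_mem ?_ (I.mul_mem_right _ h)
    exact I.mul_mem_left _ (I.mul_mem_right _ h')

theorem mem_max_iff (A : ValuationSubring ℂ) (x : A) :
    x ∈ IsLocalRing.maximalIdeal A ↔ A.valuation (x : ℂ) < 1 := by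
  rw [A.valuation_lt_one_iff]

/-- The polynomial of the line over the valuation ring. -/
theorem map_eq {n : ℕ} (A : ValuationSubring ℂ) (z v : Fin n → A) (Φ : ℤ[X])
    (h : LinePoly n (fun i => (z i : ℂ)) (fun i => (v i : ℂ)) Φ) :
    Φ.map (Int.castRingHom A) = ∏ x ∈ prs n, fac z v x := by
  have hinj : Function.Injective (Polynomial.map (A.subtype : A →+* ℂ)) :=
    Polynomial.map_injective _ (Subtype.coe_injective)
  apply hinj
  rw [Polynomial.map_map, Polynomial.map_prod]
  have h1 : (A.subtype : A →+* ℂ).comp (Int.castRingHom A) = Int.castRingHom ℂ :=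
    RingHom.ext_int _ _
  rw [h1]
  unfold LinePoly at h
  rw [h, prod_prs (f := fun i j => (C ((v j : ℂ) - v i) *
    (C ((z j : ℂ) - z i) + C ((v j : ℂ) - v i) * X)))]
  refine Finset.prod_congr rfl fun x _ => ?_
  simp only [fac, Polynomial.map_mul, Polynomial.map_add, Polynomial.map_sub, Polynomial.map_C,
    Polynomial.map_X, map_sub]
  rfl

theorem prod_lt_one_exists {ι : Type*} (A : ValuationSubring ℂ) (s : Finset ι) (f : ι → ℂ)
    (hle : ∀ i ∈ s, A.valuation (f i) ≤ 1) (h : A.valuation (∏ i ∈ s, f i) < 1) :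
    ∃ i ∈ s, A.valuation (f i) < 1 := by
  by_contra hcon
  push Not at hcon
  have : A.valuation (∏ i ∈ s, f i) = 1 := by
    rw [map_prod]
    exact Finset.prod_eq_one fun i hi => le_antisymm (hle i hi) (hcon i hi)
  exact absurd h (by rw [this]; exact lt_irrefl _)

theorem val_eq_one_of_prod {ι : Type*} (A : ValuationSubring ℂ) (s : Finset ι) (f : ι → ℂ)
    (hle : ∀ i ∈ s, A.valuation (f i) ≤ 1) (h : A.valuation (∏ i ∈ s, f i) = 1) (i : ι)
    (hi : i ∈ s) : A.valuation (f i) = 1 := by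
  classical
  refine le_antisymm (hle i hi) ?_
  rw [← Finset.mul_prod_erase s f hi, map_mul] at h
  by_contra hlt
  push Not at hlt
  have h1 : A.valuation (∏ x ∈ s.erase i, f x) ≤ 1 := by
    rw [map_prod]
    exact Finset.prod_le_one' fun j hj => hle j (Finset.mem_of_mem_erase hj)
  have h2 : A.valuation (f i) * A.valuation (∏ x ∈ s.erase i, f x) ≤ A.valuation (f i) * 1 := by
    gcongr
  rw [h, mul_one] at h2
  exact absurd hlt (not_lt.mpr h2)

theorem sin : SinStmt := by
  intro B hB n z v Φ Δ hz hv hL hBez p t a hp ha hnd hdvd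
  set A := B p with hA
  have hvzi := vzi B hB p hp
  have hza : ∀ i, z i ∈ A := fun i => (hB p hp).1 _ (hz i)
  have hva : ∀ i, v i ∈ A := fun i => (hB p hp).1 _ (hv i)
  have hta : (t : ℂ) ∈ A := (hB p hp).1 _ (isIntegral_intCast t)
  let zA : Fin n → A := fun i => ⟨z i, hza i⟩
  let vA : Fin n → A := fun i => ⟨v i, hva i⟩
  let w : Fin n → ℂ := fun k => z k + t * v k
  have hwa : ∀ i, w i ∈ A := fun i => A.add_mem _ _ (hza i) (A.mul_mem _ _ hta (hva i))
  have hna : ¬ (p : ℤ) ∣ a := fun h => hnd (h.mul_right _)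
  have hnD : ¬ (p : ℤ) ∣ Δ := fun h => hnd (h.mul_left _)
  -- the differences of the `v i` are units
  have hvle : ∀ q ∈ prs n, A.valuation ((v q.2 - v q.1) ^ 2) ≤ 1 := fun q _ =>
    (A.valuation_le_one_iff _).mpr (pow_mem (A.sub_mem (hva _) (hva _)) _)
  have hunit : ∀ q ∈ prs n, A.valuation (v q.2 - v q.1) = 1 := by
    intro q hq
    have h1 : A.valuation (∏ q ∈ prs n, (v q.2 - v q.1) ^ 2) = 1 := by
      rw [← prod_prs (f := fun i j => (v j - v i) ^ 2), ← ha]
      exact val_eq_one_of_not_dvd hB hp hna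
    have h2 := val_eq_one_of_prod A (prs n) _ hvle h1 q hq
    rw [map_pow] at h2
    rcases pow_eq_one_iff.mp h2 with h | h
    · exact h
    · exact absurd h (by norm_num)
  -- the value
  have hval : ((Φ.eval t : ℤ) : ℂ) = ∏ q ∈ prs n, ((v q.2 - v q.1) * (w q.2 - w q.1)) := by
    have h1 : ((Φ.eval t : ℤ) : ℂ) = (Φ.map (Int.castRingHom ℂ)).eval (t : ℂ) := by
      rw [Polynomial.eval_intCast_map]
      simp
    rw [h1]
    unfold LinePoly at hL
    rw [hL, prod_prs (f := fun i j => (C (v j - v i) * (C (z j - z i) + C (v j - v i) * X))),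
      Polynomial.eval_prod]
    exact Finset.prod_congr rfl fun x _ => eval_fac z v x (t : ℂ)
  have hle : ∀ q ∈ prs n, A.valuation ((v q.2 - v q.1) * (w q.2 - w q.1)) ≤ 1 := fun q _ =>
    (A.valuation_le_one_iff _).mpr (A.mul_mem _ _ (A.sub_mem (hva _) (hva _))
      (A.sub_mem (hwa _) (hwa _)))
  have hfv : ∀ q ∈ prs n, A.valuation ((v q.2 - v q.1) * (w q.2 - w q.1)) =
      A.valuation (w q.2 - w q.1) := by
    intro q hq
    rw [map_mul, hunit q hq, one_mul]
  obtain ⟨q, hq, hqlt⟩ := prod_lt_one_exists A (prs n) _ hle (by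
    rw [← hval]
    exact (hvzi (Φ.eval t)).1.mpr hdvd)
  rw [hfv q hq] at hqlt
  -- uniqueness
  have huniq : ∀ q' ∈ prs n, A.valuation (w q'.2 - w q'.1) < 1 → q' = q := by
    intro q' hq' hlt'
    by_contra hne
    have hmap := map_eq A zA vA Φ hL
    have hmem : ∀ x ∈ prs n, A.valuation (w x.2 - w x.1) < 1 →
        (fac zA vA x).eval (⟨t, hta⟩ : A) ∈ IsLocalRing.maximalIdeal A := by
      intro x hx hxl
      rw [mem_max_iff, eval_fac]
      rw [← hfv x hx] at hxl
      exact hxl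
    have h1 := deriv_mem zA vA (IsLocalRing.maximalIdeal A) ⟨t, hta⟩ q q' hq hq' (Ne.symm hne)
      (hmem q hq hqlt) (hmem q' hq' hlt')
    rw [← hmap] at h1
    obtain ⟨U, V, hUV⟩ := hBez
    have h2 := congrArg (fun P : ℤ[X] => (P.map (Int.castRingHom A)).eval (⟨t, hta⟩ : A)) hUV
    simp only [Polynomial.map_add, Polynomial.map_mul, eval_add, eval_mul, Polynomial.map_C,
      eval_C, ← Polynomial.derivative_map] at h2
    have h3 : (Int.castRingHom A) Δ ∈ IsLocalRing.maximalIdeal A := by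
      rw [← h2]
      exact Ideal.add_mem _ (Ideal.mul_mem_left _ _ h1.1) (Ideal.mul_mem_left _ _ h1.2)
    rw [mem_max_iff] at h3
    have h4 : A.valuation (Δ : ℂ) < 1 := by simpa using h3
    exact hnD ((hvzi Δ).1.mp h4)
  have hq12 : q.1 < q.2 := mem_prs.mp hq
  refine ⟨q.1, q.2, ⟨ne_of_lt hq12, ?_, ?_⟩, ?_⟩
  · rw [← A.valuation.map_neg]
    simpa [w] using hqlt
  · intro k l hkl hlt
    rcases lt_or_gt_of_ne hkl with h | h
    · left
      have := huniq ⟨k, l⟩ (mem_prs.mpr h) (by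
        rw [← A.valuation.map_neg]
        simpa [w] using hlt)
      exact ⟨by rw [← this], by rw [← this]⟩
    · right
      have := huniq ⟨l, k⟩ (mem_prs.mpr h) (by simpa [w] using hlt)
      exact ⟨by rw [← this], by rw [← this]⟩
  · intro m hm
    have h1 : A.valuation ((Φ.eval t : ℤ) : ℂ) = A.valuation (w q.2 - w q.1) := by
      rw [hval, map_prod, ← Finset.mul_prod_erase _ _ hq, hfv q hq]
      rw [Finset.prod_eq_one, mul_one]
      intro x hx
      rw [hfv x (Finset.mem_of_mem_erase hx)]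
      have hx' := hle x (Finset.mem_of_mem_erase hx)
      rw [hfv x (Finset.mem_of_mem_erase hx)] at hx'
      refine le_antisymm hx' ?_
      by_contra hlt
      push Not at hlt
      exact Finset.ne_of_mem_erase hx (huniq x (Finset.mem_of_mem_erase hx) hlt)
    have h2 := ((hvzi (Φ.eval t)).2 m).mpr hm
    rw [h1] at h2
    rw [← A.valuation.map_neg]
    simpa [w] using h2

end Pool.Agent.FK.H52
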