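import Pool.Agent.Helper13_FK.Stmts

/-! # Squad FK, module VZI: the valuation of integers -/

namespace Pool.Agent.FK.H52

open NumberField Polynomial Module Pool.Agent.FK

theorem val_int_le_one {B : ℕ → ValuationSubring ℂ} (hB : GoodB B) {p : ℕ} (hp : p.Prime)
    {x : ℂ} (hx : IsIntegral ℤ x) : (B p).valuation x ≤ 1 :=
  ((B p).valuation_le_one_iff x).mpr ((hB p hp).1 x hx)

theorem isIntegral_intCast (k : ℤ) : IsIntegral ℤ (k : ℂ) := by
  have h : IsIntegral ℤ (algebraMap ℤ ℂ k) := isIntegral_algebraMap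
  simpa using h

theorem val_eq_one_of_not_dvd {B : ℕ → ValuationSubring ℂ} (hB : GoodB B) {p : ℕ} (hp : p.Prime)
    {k : ℤ} (hk : ¬ (p : ℤ) ∣ k) : (B p).valuation (k : ℂ) = 1 := by
  have hle : ∀ j : ℤ, (B p).valuation (j : ℂ) ≤ 1 :=
    fun j => val_int_le_one hB hp (isIntegral_intCast j)
  have hcop : IsCoprime (p : ℤ) k :=
    (Nat.prime_iff_prime_int.mp hp).irreducible.coprime_iff_not_dvd.mpr hk
  obtain ⟨u, w, huw⟩ := hcop
  have h1 : ((u : ℂ) * (p : ℂ) + (w : ℂ) * (k : ℂ)) = 1 := by
    have := congrArg (fun z : ℤ => (z : ℂ)) huw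
    push_cast at this
    simpa using this
  by_contra hne
  have hlt : (B p).valuation (k : ℂ) < 1 := lt_of_le_of_ne (hle k) hne
  have h2 : (B p).valuation ((u : ℂ) * (p : ℂ)) < 1 := by
    rw [map_mul]
    calc (B p).valuation (u : ℂ) * (B p).valuation (p : ℂ)
        ≤ 1 * (B p).valuation (p : ℂ) := by gcongr; exact hle u
      _ < 1 := by rw [one_mul]; exact (hB p hp).2
  have h3 : (B p).valuation ((w : ℂ) * (k : ℂ)) < 1 := by
    rw [map_mul]
    calc (B p).valuation (w : ℂ) * (B p).valuation (k : ℂ)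
        ≤ 1 * (B p).valuation (k : ℂ) := by gcongr; exact hle w
      _ < 1 := by rw [one_mul]; exact hlt
  have h4 := (B p).valuation.map_add_lt h2 h3
  rw [h1, map_one] at h4
  exact lt_irrefl _ h4

theorem vzi : VziStmt := by
  intro B hB p hp k
  have hle : ∀ j : ℤ, (B p).valuation (j : ℂ) ≤ 1 :=
    fun j => val_int_le_one hB hp (isIntegral_intCast j)
  have hp0 : (B p).valuation (p : ℂ) ≠ 0 := by
    rw [(B p).valuation.ne_zero_iff]
    exact_mod_cast hp.ne_zero
  have hpos : 0 < (B p).valuation (p : ℂ) := zero_lt_iff.mpr hp0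
  have hdiv : ∀ m : ℕ, (p : ℤ) ^ m ∣ k → (B p).valuation (k : ℂ) ≤ (B p).valuation (p : ℂ) ^ m := by
    rintro m ⟨j, rfl⟩
    push_cast
    rw [map_mul, map_pow]
    calc (B p).valuation (p : ℂ) ^ m * (B p).valuation (j : ℂ)
        ≤ (B p).valuation (p : ℂ) ^ m * 1 := by gcongr; exact hle j
      _ = _ := mul_one _
  constructor
  · constructor
    · intro h
      by_contra hk
      rw [val_eq_one_of_not_dvd hB hp hk] at h
      exact lt_irrefl _ h
    · intro h
      have := hdiv 1 (by simpa using h)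
      rw [pow_one] at this
      exact lt_of_le_of_lt this (hB p hp).2
  · intro m
    refine ⟨?_, hdiv m⟩
    intro h
    rcases eq_or_ne k 0 with rfl | hk
    · exact dvd_zero _
    have hfin : FiniteMultiplicity (p : ℤ) k := by
      rw [Int.finiteMultiplicity_iff]
      exact ⟨by simpa using hp.ne_one, hk⟩
    obtain ⟨j, hj, hnd⟩ := hfin.exists_eq_pow_mul_and_not_dvd
    set a := multiplicity (p : ℤ) k with ha
    by_contra hcon
    have ham : a < m := by
      by_contra hh
      push Not at hh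
      exact hcon (hj ▸ (pow_dvd_pow _ hh).mul_right j)
    have hv : (B p).valuation (k : ℂ) = (B p).valuation (p : ℂ) ^ a := by
      rw [hj]
      push_cast
      rw [map_mul, map_pow, val_eq_one_of_not_dvd hB hp hnd, mul_one]
    rw [hv] at h
    exact absurd h (not_le.mpr (pow_lt_pow_right_of_lt_one₀ hpos (hB p hp).2 ham))

end Pool.Agent.FK.H52
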